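import Pool.Agent.MP_13199e_lc.PP.Model

/-! PROJECT PP: the calculus of realizable relations. -/

set_option autoImplicit false

namespace Pool.Agent.PP

open Function

variable {Ctx In In' Mid Out Out' κ : Type} {S : Stg Ctx} {c c' : ℕ}

theorem Real.mono {R R' : S.Rel In Out} (h : Real S c R) (hc : c ≤ c')
    (hR : ∀ e x o F, R e x o F → R' e x o F) : Real S c' R' :=
  let ⟨G, out, h1, h2⟩ := h
  ⟨G, out, h1.trans hc, fun e x v F k => hR _ _ _ _ (h2 e x v F k)⟩

theorem Real.id (S : Stg Ctx) (φ : Out → In) :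
    Real S 0 (In := In) (Out := Out) fun _ x o _ => o = fun k => x (φ k) :=
  ⟨⟨Empty, inferInstance, Empty.elim, Empty.elim, Empty.elim, Empty.elim⟩, fun k => .inl (φ k),
    by simp, fun _ _ _ _ _ => rfl⟩

theorem Real.ren {R : S.Rel In Out} (h : Real S c R) (φ : In → In') :
    Real S c (In := In') fun e x o F => R e (fun i => x (φ i)) o F := by
  obtain ⟨G, out, h1, h2⟩ := h
  have key : ∀ e (x : In' → S.P e → V4) (v : G.Lay → S.P e → V4) (u : In ⊕ G.Lay),
      Sum.elim x v (u.map φ _root_.id) = Sum.elim (fun i => x (φ i)) v u := fun _ _ _ u => by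
    cases u <;> rfl
  refine ⟨⟨G.Lay, G.fin, fun a b => (G.src a b).map φ _root_.id, G.wire, G.flag, G.f⟩,
    fun o => (out o).map φ _root_.id, h1, fun e x v F k => ?_⟩
  simp only [key]
  exact h2 e _ v F fun p hp a => by simpa only [key] using k p hp a

theorem Real.out {R : S.Rel In Out} (h : Real S c R) (ψ : Out' → Out) :
    Real S c (Out := Out') fun e x o' F => ∃ o, R e x o F ∧ o' = fun k => o (ψ k) :=
  let ⟨G, out, h1, h2⟩ := h
  ⟨G, fun k => out (ψ k), h1, fun e x v F k => ⟨_, h2 e x v F k, rfl⟩⟩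

/-- Sequential composition; the outputs of the first part stay available. -/
theorem Real.seq' {R : S.Rel In Mid} {R' : S.Rel (In ⊕ Mid) Out} (h : Real S c R)
    (h' : Real S c' R') : Real S (c + c') (Out := Mid ⊕ Out) fun e x o F =>
      R e x (fun i => o (.inl i)) F ∧
        R' e (Sum.elim x fun i => o (.inl i)) (fun i => o (.inr i)) F := by
  obtain ⟨G, out, h1, h2⟩ := h
  obtain ⟨G', out', h1', h2'⟩ := h'
  have := G.fin
  have := G'.fin
  let j : In ⊕ G.Lay → In ⊕ (G.Lay ⊕ G'.Lay) := Sum.map _root_.id .inl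
  let j' : (In ⊕ Mid) ⊕ G'.Lay → In ⊕ (G.Lay ⊕ G'.Lay) :=
    Sum.elim (Sum.elim .inl fun i => j (out i)) fun a => .inr (.inr a)
  have key : ∀ e (x : In → S.P e → V4) (v : G.Lay ⊕ G'.Lay → S.P e → V4) u,
      Sum.elim x v (j u) = Sum.elim x (fun a => v (.inl a)) u := fun _ _ _ u => by cases u <;> rfl
  have key' : ∀ e (x : In → S.P e → V4) (v : G.Lay ⊕ G'.Lay → S.P e → V4) u,
      Sum.elim x v (j' u) = Sum.elim (Sum.elim x fun i => Sum.elim x v (j (out i)))
        (fun a => v (.inr a)) u := fun _ _ _ u => by rcases u with (u | u) | u <;> rfl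
  refine ⟨⟨G.Lay ⊕ G'.Lay, inferInstance,
    Sum.elim (fun a b => j (G.src a b)) fun a b => j' (G'.src a b), Sum.elim G.wire G'.wire,
    Sum.elim G.flag G'.flag, Sum.elim G.f G'.f⟩,
    Sum.elim (fun i => j (out i)) fun i => j' (out' i),
    (Nat.card_sum (α := G.Lay)).trans_le (add_le_add h1 h1'), fun e x v F k => ⟨?_, ?_⟩⟩
  · simp only [Sum.elim_inl, key]
    exact h2 e x _ F fun p hp a => by simpa only [Sum.elim_inl, key] using k p hp (.inl a)
  · simp only [Sum.elim_inl, Sum.elim_inr, key']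
    exact h2' e _ _ F fun p hp a => by simpa only [Sum.elim_inr, key'] using k p hp (.inr a)

theorem Real.seq {R : S.Rel In Mid} {R' : S.Rel (In ⊕ Mid) Out} (h : Real S c R)
    (h' : Real S c' R') : Real S (c + c') fun e x o F =>
      ∃ y, R e x y F ∧ R' e (Sum.elim x y) o F :=
  ((h.seq' h').out .inr).mono le_rfl fun _ _ _ _ ⟨_, k, e⟩ => ⟨_, k.1, e ▸ k.2⟩

/-- Composition of two parts; the second one reads only the outputs of the first one. -/
theorem Real.comp {R : S.Rel In Mid} {R' : S.Rel Mid Out} (h : Real S c R) (h' : Real S c' R') :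
    Real S (c + c') fun e x o F => ∃ y, R e x y F ∧ R' e y o F :=
  h.seq (h'.ren (In' := In ⊕ Mid) Sum.inr)

theorem Real.both {R : S.Rel In Out} {R' : S.Rel In Out'} (h : Real S c R) (h' : Real S c' R') :
    Real S (c + c') (Out := Out ⊕ Out') fun e x o F =>
      R e x (fun i => o (.inl i)) F ∧ R' e x (fun i => o (.inr i)) F :=
  h.seq' (h'.ren (In' := In ⊕ Out) Sum.inl)

theorem Real.par [Finite κ] {R : κ → S.Rel In Out} (h : ∀ k, Real S c (R k)) :
    Real S (Nat.card κ * c) (Out := κ × Out) fun e x o F =>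
      ∀ k, R k e x (fun j => o (k, j)) F := by
  choose G out h1 h2 using h
  have := fun k => (G k).fin
  have := Fintype.ofFinite κ
  let j : ∀ k, In ⊕ (G k).Lay → In ⊕ (Σ k, (G k).Lay) := fun k => Sum.map _root_.id fun a => ⟨k, a⟩
  have key : ∀ e k (x : In → S.P e → V4) (v : (Σ k, (G k).Lay) → S.P e → V4) u,
      Sum.elim x v (j k u) = Sum.elim x (fun a => v ⟨k, a⟩) u := fun _ _ _ _ u => by
    cases u <;> rfl
  refine ⟨⟨Σ k, (G k).Lay, inferInstance, fun a b => j a.1 ((G a.1).src a.2 b),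
    fun a => (G a.1).wire a.2, fun a => (G a.1).flag a.2, fun a => (G a.1).f a.2⟩,
    fun o => j o.1 (out o.1 o.2), ?_, fun e x v F k i => ?_⟩
  · refine Nat.card_sigma.trans_le ((Finset.sum_le_card_nsmul _ _ c fun k _ => h1 k).trans_eq ?_)
    simp
  · simp only [key]
    exact h2 i e x _ F fun p hp a => by simpa only [key] using k p hp ⟨i, a⟩

/-- Iteration; all intermediate values are outputs. -/
theorem Real.iterAll {R : ℕ → S.Rel (In ⊕ κ) κ} (n : ℕ) (h : ∀ k < n, Real S c (R k)) :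
    Real S (n * c) (In := In ⊕ κ) (Out := ℕ × κ) fun e x o F =>
      ((fun j => o (0, j)) = fun j => x (.inr j)) ∧ ∀ k < n,
        R k e (Sum.elim (fun i => x (.inl i)) fun j => o (k, j)) (fun j => o (k + 1, j)) F := by
  induction n with
  | zero =>
    exact (Real.id S fun o : ℕ × κ => Sum.inr o.2).mono (by simp) fun _ _ _ _ e =>
      ⟨e ▸ rfl, fun _ hk => absurd hk (Nat.not_lt_zero _)⟩
  | succ n ih =>
    refine (((ih fun k hk => h k (by omega)).seq' ((h n n.lt_succ_self).ren
      (Sum.elim (fun i => .inl (.inl i)) fun j => .inr (n, j)))).out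
      fun o : ℕ × κ => if o.1 = n + 1 then .inr o.2 else .inl o).mono (Nat.succ_mul n c).ge ?_
    rintro e x _ F ⟨o, ⟨⟨h0, h1⟩, h2⟩, rfl⟩
    refine ⟨by simpa using h0, fun k hk => ?_⟩
    have e1 : k ≠ n + 1 := by omega
    by_cases e2 : k = n
    · subst e2
      simp only [if_neg e1, if_true]
      convert h2 using 1
      funext u
      cases u <;> rfl
    · simp only [if_neg e1, if_neg (show k + 1 ≠ n + 1 by omega)]
      exact h1 k (by omega)

theorem Real.iter {R : ℕ → S.Rel (In ⊕ κ) κ} (n : ℕ) (h : ∀ k < n, Real S c (R k)) :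
    Real S (n * c) (In := In ⊕ κ) (Out := κ) fun e x o F => ∃ y : ℕ → κ → S.P e → V4,
      (y 0 = fun j => x (.inr j)) ∧ y n = o ∧
        ∀ k < n, R k e (Sum.elim (fun i => x (.inl i)) (y k)) (y (k + 1)) F :=
  ((Real.iterAll n h).out fun j => (n, j)).mono le_rfl fun _ _ _ _ ⟨o, k, e⟩ =>
    ⟨fun i j => o (i, j), k.1, e.symm, k.2⟩

/-- Iteration without further inputs. -/
theorem Real.chain {R : ℕ → S.Rel κ κ} (n : ℕ) (h : ∀ k < n, Real S c (R k)) :
    Real S (n * c) (In := κ) (Out := κ) fun e x o F => ∃ y : ℕ → κ → S.P e → V4,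
      y 0 = x ∧ y n = o ∧ ∀ k < n, R k e (y k) (y (k + 1)) F :=
  (Real.iter (In := Empty) n fun k hk => (h k hk).ren (In' := Empty ⊕ κ) Sum.inr).ren
    (Sum.elim Empty.elim _root_.id)

theorem Real.gate (S : Stg Ctx) (src : Bool → In) (wire : Bool → S.Wi) (flag : Bool → Bool)
    (f : Ctx → Bool → Bool → Bool) : Real S 1 (In := In) (Out := Unit) fun e x o F => ∀ p ∉ F,
      Forc (f (S.ctx e p)) (rd (flag false) (x (src false) (S.rn e (wire false) p)))
        (rd (flag true) (x (src true) (S.rn e (wire true) p))) (o () p) :=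
  ⟨⟨Unit, inferInstance, fun _ b => .inl (src b), fun _ => wire, fun _ => flag, fun _ => f⟩,
    fun _ => .inr (), by simp, fun _ _ _ _ k p hp => k p hp ()⟩

/-- One gate for each output. -/
theorem Real.gates (S : Stg Ctx) [Finite κ] (src : κ → Bool → In) (wire : κ → Bool → S.Wi)
    (flag : κ → Bool → Bool) (f : κ → Ctx → Bool → Bool → Bool) :
    Real S (Nat.card κ) (In := In) (Out := κ) fun e x o F => ∀ p ∉ F, ∀ k,
      Forc (f k (S.ctx e p)) (rd (flag k false) (x (src k false) (S.rn e (wire k false) p)))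
        (rd (flag k true) (x (src k true) (S.rn e (wire k true) p))) (o k p) :=
  ⟨⟨κ, inferInstance, fun k b => .inl (src k b), wire, flag, f⟩, .inr, le_rfl,
    fun _ _ _ _ k p hp => k p hp⟩

/-- Copies. -/
theorem Real.copy (S : Stg Ctx) [Finite κ] (src : κ → In) (wire : κ → S.Wi) (flag : κ → Bool) :
    Real S (Nat.card κ) (In := In) (Out := κ) fun e x o F => ∀ p ∉ F, ∀ k b,
      rd (flag k) (x (src k) (S.rn e (wire k) p)) = some b → o k p = ofB b :=
  (Real.gates S (fun k _ => src k) (fun k _ => wire k) (fun k _ => flag k) fun _ _ a _ => a).mono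
    le_rfl fun _ _ _ _ h p hp k _ e => (e ▸ h p hp k).left fun _ => rfl

/-- Feeding the outputs back. -/
theorem Real.close [Finite κ] {R : S.Rel κ κ} (h : Real S c R) :
    ∃ (G : Frag Ctx S.Wi Empty) (out : κ → G.Lay), Nat.card G.Lay ≤ c + Nat.card κ ∧
      ∀ e v (F : Set (S.P e)), (∀ p ∉ F, G.Sat (S.rn e) (S.ctx e) Empty.elim v p) →
        ∃ o, R e (fun k => v (out k)) o F ∧
          ∀ p ∉ F, ∀ k b, o k p = ofB b → v (out k) p = ofB b := by
  obtain ⟨G, out, h1, h2⟩ := h
  have := G.fin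
  let j : κ ⊕ G.Lay → Empty ⊕ (κ ⊕ G.Lay) := .inr
  have key : ∀ e (v : κ ⊕ G.Lay → S.P e → V4) u, Sum.elim Empty.elim v (j u) =
      Sum.elim (fun k => v (.inl k)) (fun a => v (.inr a)) u := fun _ _ u => by cases u <;> rfl
  refine ⟨⟨κ ⊕ G.Lay, inferInstance, Sum.elim (fun k _ => j (out k)) fun a b => j (G.src a b),
    Sum.elim (fun _ _ => S.i0) G.wire, Sum.elim (fun _ _ => false) G.flag,
    Sum.elim (fun _ _ a _ => a) G.f⟩, .inl,
    (Nat.card_sum (α := κ)).trans_le (by omega), fun e v F k => ⟨_, h2 e _ (fun a => v (.inr a)) F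
      fun p hp a => by simpa only [Sum.elim_inr, key] using k p hp (.inr a), fun p hp i b u => ?_⟩⟩
  have := k p hp (.inl i)
  simp only [Sum.elim_inl, key, S.rn0] at this
  rw [u, rd_ofB] at this
  exact this.left fun _ => rfl

/-- The local setting: the wires are permutations of the labels. -/
@[reducible] def locS (Cx Lb : Type) : Stg (Cx × Lb) where
  ε := Cx
  P _ := Lb
  Wi := Equiv.Perm Lb
  rn _ β l := β l
  ctx e l := (e, l)
  i0 := 1
  rn0 _ _ := rfl

/-- From the local setting to all sites of another setting. -/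
theorem Real.lift {Cx Lb : Type} {R : (locS Cx Lb).Rel In Out} (h : Real (locS Cx Lb) c R)
    (S : Stg (Cx × Lb)) (Si : S.ε → Type) (pt : ∀ e, Si e → Lb → S.P e) (cx : ∀ e, Si e → Cx)
    (lw : Equiv.Perm Lb → S.Wi) (h1 : ∀ e σ l, S.ctx e (pt e σ l) = (cx e σ, l))
    (h2 : ∀ e β σ l, S.rn e (lw β) (pt e σ l) = pt e σ (β l)) :
    Real S c (In := In) (Out := Out) fun e x o F => ∀ σ, R (cx e σ) (fun i l => x i (pt e σ l))
      (fun k l => o k (pt e σ l)) {l | pt e σ l ∈ F} := by
  obtain ⟨G, out, g1, g2⟩ := h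
  have key : ∀ e σ (x : In → S.P e → V4) (v : G.Lay → S.P e → V4) u l,
      Sum.elim x v u (pt e σ l) = Sum.elim (fun i l => x i (pt e σ l))
        (fun a l => v a (pt e σ l)) u l := fun _ _ _ _ u _ => by cases u <;> rfl
  refine ⟨⟨G.Lay, G.fin, G.src, fun a b => lw (G.wire a b), G.flag, G.f⟩, out, g1,
    fun e x v F k σ => ?_⟩
  simp only [key]
  exact g2 (cx e σ) _ (fun a l => v a (pt e σ l)) _ fun l hl a => by
    have := k (pt e σ l) hl a
    simp only [h1, h2, key] at this
    exact this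

end Pool.Agent.PP
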