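import Mathlib

/-! PROJECT PP: averages and probabilities on finite types. -/

set_option autoImplicit false
set_option linter.unusedSectionVars false

namespace Pool.Agent.PP

open Classical in
/-- The indicator of a proposition. -/
noncomputable def ind (p : Prop) : ℝ := if p then 1 else 0

/-- The average. -/
noncomputable def av {α : Type} (f : α → ℝ) : ℝ := (∑ᶠ a, f a) / Nat.card α

/-- The probability. -/
noncomputable def pr {α : Type} (p : α → Prop) : ℝ := av fun a => ind (p a)

/-- The number of points with `p`. -/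
noncomputable def cn {α : Type} (p : α → Prop) : ℕ := Nat.card {a // p a}

/-- A sampler. -/
def Smp {G S : Type} [Add G] (γ : S → G) (lam : ℝ) : Prop :=
  ∀ f : G → ℝ, av (fun g => (av (fun σ => f (g + γ σ)) - av f) ^ 2) ≤
    lam ^ 2 * av fun g => (f g - av f) ^ 2

section
variable {p q : Prop}

theorem ind_pos (h : p) : ind p = 1 := if_pos h
theorem ind_neg (h : ¬p) : ind p = 0 := if_neg h
theorem ind_nonneg (p : Prop) : 0 ≤ ind p := by unfold ind; split_ifs <;> norm_num
theorem ind_le_one (p : Prop) : ind p ≤ 1 := by unfold ind; split_ifs <;> norm_num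
theorem ind_mono (h : p → q) : ind p ≤ ind q := by
  by_cases u : p
  · rw [ind_pos u, ind_pos (h u)]
  · rw [ind_neg u]; exact ind_nonneg q
theorem ind_not (p : Prop) : ind (¬p) = 1 - ind p := by by_cases u : p <;> simp [ind, u]
theorem ind_and (p q : Prop) : ind (p ∧ q) = ind p * ind q := by
  by_cases u : p <;> by_cases v : q <;> simp [ind, u, v]
theorem ind_or (p q : Prop) : ind (p ∨ q) ≤ ind p + ind q := by
  by_cases u : p <;> by_cases v : q <;> simp [ind, u, v]
theorem ind_le {c : ℝ} (h0 : 0 ≤ c) (h : p → 1 ≤ c) : ind p ≤ c := by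
  by_cases u : p
  · rw [ind_pos u]; exact h u
  · rwa [ind_neg u]
end

variable {α β ι : Type} {f g : α → ℝ} {p q : α → Prop} {c : ℝ}

theorem av_eq [Fintype α] (f : α → ℝ) : av f = (∑ a, f a) / Fintype.card α := by
  rw [av, finsum_eq_sum_of_fintype, Nat.card_eq_fintype_card]

theorem av_equiv (e : α ≃ β) (f : β → ℝ) : av (fun a => f (e a)) = av f := by
  rw [av, av, Nat.card_congr e, finsum_comp_equiv]

theorem av_bij {e : α → β} (h : Function.Bijective e) (f : β → ℝ) :
    av (fun a => f (e a)) = av f := av_equiv (.ofBijective e h) f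

theorem av_congr (h : ∀ a, f a = g a) : av f = av g := congrArg av (funext h)

theorem pr_congr (h : ∀ a, p a ↔ q a) : pr p = pr q := congrArg pr (funext fun a => propext (h a))

theorem pr_equiv (e : α ≃ β) (p : β → Prop) : pr (fun a => p (e a)) = pr p :=
  av_equiv e fun b => ind (p b)

theorem pr_bij {e : α → β} (h : Function.Bijective e) (p : β → Prop) :
    pr (fun a => p (e a)) = pr p := av_bij h fun b => ind (p b)

theorem av_shift [AddGroup α] (f : α → ℝ) (a : α) : av (fun x => f (x + a)) = av f :=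
  av_equiv (Equiv.addRight a) f

theorem pr_shift [AddGroup α] (p : α → Prop) (a : α) : pr (fun x => p (x + a)) = pr p :=
  pr_equiv (Equiv.addRight a) p

theorem av_zero : av (fun _ : α => (0 : ℝ)) = 0 := by simp [av]

variable [Finite α] [Finite β] [Finite ι]

theorem av_const [Nonempty α] (c : ℝ) : av (fun _ : α => c) = c := by
  have := Fintype.ofFinite α
  have : (Fintype.card α : ℝ) ≠ 0 := by simp
  rw [av_eq, Finset.sum_const, Finset.card_univ, nsmul_eq_mul]
  field_simp

theorem av_add (f g : α → ℝ) : av (fun a => f a + g a) = av f + av g := by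
  have := Fintype.ofFinite α
  rw [av_eq, av_eq, av_eq, Finset.sum_add_distrib, add_div]

theorem av_sub (f g : α → ℝ) : av (fun a => f a - g a) = av f - av g := by
  have := Fintype.ofFinite α
  rw [av_eq, av_eq, av_eq, Finset.sum_sub_distrib, sub_div]

theorem av_mul (c : ℝ) (f : α → ℝ) : av (fun a => c * f a) = c * av f := by
  have := Fintype.ofFinite α
  rw [av_eq, av_eq, ← Finset.mul_sum, mul_div_assoc]

theorem av_mul' (c : ℝ) (f : α → ℝ) : av (fun a => f a * c) = av f * c := by
  simp only [mul_comm _ c, av_mul]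

theorem av_div (c : ℝ) (f : α → ℝ) : av (fun a => f a / c) = av f / c := av_mul' c⁻¹ f

theorem av_sum (s : Finset β) (f : β → α → ℝ) :
    av (fun a => ∑ b ∈ s, f b a) = ∑ b ∈ s, av (f b) := by
  have := Fintype.ofFinite α
  simp only [av_eq]
  rw [Finset.sum_comm, Finset.sum_div]

theorem av_mono (h : ∀ a, f a ≤ g a) : av f ≤ av g := by
  have := Fintype.ofFinite α
  rw [av_eq, av_eq]
  exact div_le_div_of_nonneg_right (Finset.sum_le_sum fun a _ => h a) (Nat.cast_nonneg _)

theorem av_nonneg (h : ∀ a, 0 ≤ f a) : 0 ≤ av f := av_zero (α := α) ▸ av_mono h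

theorem av_le [Nonempty α] (h : ∀ a, f a ≤ c) : av f ≤ c := (av_mono h).trans_eq (av_const c)

theorem le_av [Nonempty α] (h : ∀ a, c ≤ f a) : c ≤ av f := (av_const c).symm.trans_le (av_mono h)

theorem exists_le_av [Nonempty α] (f : α → ℝ) : ∃ a, f a ≤ av f :=
  let ⟨a, h⟩ := Finite.exists_min f
  ⟨a, le_av h⟩

theorem exists_av_le [Nonempty α] (f : α → ℝ) : ∃ a, av f ≤ f a :=
  let ⟨a, h⟩ := Finite.exists_max f
  ⟨a, av_le h⟩

theorem av_prod (f : α × β → ℝ) : av f = av fun a => av fun b => f (a, b) := by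
  have := Fintype.ofFinite α
  have := Fintype.ofFinite β
  simp only [av_eq]
  rw [Fintype.sum_prod_type, ← Finset.sum_div, div_div, Fintype.card_prod, Nat.cast_mul, mul_comm]

theorem av_prod' (f : α × β → ℝ) : av f = av fun b => av fun a => f (a, b) := by
  rw [← av_equiv (Equiv.prodComm β α), av_prod]; rfl

theorem av_comm (f : α → β → ℝ) : av (fun a => av (f a)) = av fun b => av fun a => f a b :=
  (av_prod fun x : α × β => f x.1 x.2).symm.trans (av_prod' _)

theorem av_fst [Nonempty β] (f : α → ℝ) : av (fun x : α × β => f x.1) = av f := by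
  simp only [av_prod, av_const]

theorem av_snd [Nonempty α] (f : β → ℝ) : av (fun x : α × β => f x.2) = av f := by
  rw [av_prod]; exact av_const (α := α) (av f)

/-- Averaging over shifts. -/
theorem av_av_shift [AddGroup α] [Nonempty β] (f : α → ℝ) (s : β → α) :
    av (fun x => av fun b => f (x + s b)) = av f := by
  rw [av_comm]; simp only [av_shift, av_const]

theorem av_cs (f g : α → ℝ) :
    av (fun a => f a * g a) ^ 2 ≤ av (fun a => f a ^ 2) * av fun a => g a ^ 2 := by
  have := Fintype.ofFinite α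
  simp only [av_eq]
  rw [div_pow, div_mul_div_comm, ← sq]
  exact div_le_div_of_nonneg_right (Finset.sum_mul_sq_le_sq_mul_sq _ _ _) (sq_nonneg _)

theorem av_sq_le [Nonempty α] (f : α → ℝ) : av f ^ 2 ≤ av fun a => f a ^ 2 := by
  simpa [av_const] using av_cs f fun _ => 1

theorem abs_av_le (f : α → ℝ) : |av f| ≤ av fun a => |f a| := by
  refine abs_le.2 ⟨?_, av_mono fun a => le_abs_self _⟩
  have := av_mono (f := fun a => -1 * |f a|) (g := f) fun a => by linarith [neg_abs_le (f a)]
  rw [av_mul] at this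
  linarith

theorem pr_nonneg (p : α → Prop) : 0 ≤ pr p := av_nonneg fun _ => ind_nonneg _

theorem pr_le_one (p : α → Prop) : pr p ≤ 1 := by
  cases isEmpty_or_nonempty α
  · simp [pr, av]
  · exact av_le fun _ => ind_le_one _

theorem pr_mono (h : ∀ a, p a → q a) : pr p ≤ pr q := av_mono fun a => ind_mono (h a)

theorem pr_or (p q : α → Prop) : pr (fun a => p a ∨ q a) ≤ pr p + pr q :=
  (av_mono fun _ => ind_or _ _).trans_eq (av_add _ _)

/-- The union bound for two events. -/
theorem pr_le_add {r : α → Prop} (h : ∀ a, r a → p a ∨ q a) : pr r ≤ pr p + pr q :=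
  (pr_mono h).trans (pr_or p q)

theorem pr_not [Nonempty α] (p : α → Prop) : pr (fun a => ¬p a) = 1 - pr p := by
  simp only [pr, ind_not, av_sub, av_const]

theorem pr_of_not (h : ∀ a, ¬p a) : pr p = 0 := by simp only [pr, ind_neg (h _), av_zero]

theorem pr_of_all [Nonempty α] (h : ∀ a, p a) : pr p = 1 := by
  simp only [pr, ind_pos (h _), av_const]

theorem pr_le_av (h0 : ∀ a, 0 ≤ f a) (h : ∀ a, p a → 1 ≤ f a) : pr p ≤ av f :=
  av_mono fun a => ind_le (h0 a) (h a)

theorem pr_exists_le [Fintype β] (p : β → α → Prop) :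
    pr (fun a => ∃ b, p b a) ≤ ∑ b, pr (p b) :=
  (pr_le_av (fun _ => Finset.sum_nonneg fun _ _ => ind_nonneg _) fun a ⟨b, h⟩ =>
    (ind_pos h).ge.trans (Finset.single_le_sum (f := fun b => ind (p b a))
      (fun _ _ => ind_nonneg _) (Finset.mem_univ b))).trans_eq (av_sum _ _)

/-- The union bound. -/
theorem pr_exists_le' {p : β → α → Prop} (h : ∀ b, pr (p b) ≤ c) :
    pr (fun a => ∃ b, p b a) ≤ Nat.card β * c := by
  have := Fintype.ofFinite β
  refine (pr_exists_le p).trans ((Finset.sum_le_card_nsmul _ _ c fun b _ => h b).trans_eq ?_)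
  simp

theorem markov (h0 : ∀ a, 0 ≤ f a) (hc : 0 < c) : pr (fun a => c ≤ f a) ≤ av f / c :=
  (pr_le_av (fun a => div_nonneg (h0 a) hc.le) fun _ h => (one_le_div hc).2 h).trans_eq
    (av_div c f)

theorem pr_prod (p : α × β → Prop) : pr p = av fun a => pr fun b => p (a, b) := av_prod _

theorem pr_prod' (p : α × β → Prop) : pr p = av fun b => pr fun a => p (a, b) := av_prod' _

theorem pr_comm (p : α → β → Prop) : av (fun a => pr (p a)) = av fun b => pr fun a => p a b :=
  av_comm _

theorem pr_fst [Nonempty β] (p : α → Prop) : pr (fun x : α × β => p x.1) = pr p :=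
  av_fst fun a => ind (p a)

theorem pr_snd [Nonempty α] (p : β → Prop) : pr (fun x : α × β => p x.2) = pr p :=
  av_snd fun a => ind (p a)

theorem pr_eq_cn (p : α → Prop) : pr p = cn p / Nat.card α := by
  classical
  have := Fintype.ofFinite α
  rw [pr, av_eq, cn, Nat.card_eq_fintype_card, Nat.card_eq_fintype_card, Fintype.card_subtype]
  simp [ind]

theorem cn_eq [Fintype α] [DecidablePred p] : cn p = (Finset.univ.filter p).card := by
  rw [cn, Nat.card_eq_fintype_card, Fintype.card_subtype]

theorem cn_le (p : α → Prop) : cn p ≤ Nat.card α := Finite.card_subtype_le p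

theorem cn_mono (h : ∀ a, p a → q a) : cn p ≤ cn q :=
  Nat.card_le_card_of_injective (Subtype.map id h) (Subtype.map_injective h fun _ _ e => e)

theorem exists_not_of_pr_lt [Nonempty α] (h : pr p < 1) : ∃ a, ¬p a :=
  by_contra fun k => h.ne (pr_of_all fun a => by_contra fun u => k ⟨a, u⟩)

theorem exists_of_pr_pos (h : 0 < pr p) : ∃ a, p a :=
  by_contra fun k => h.ne' (pr_of_not fun a u => k ⟨a, u⟩)

theorem le_pr {a : α} (h : p a) : 1 / (Nat.card α : ℝ) ≤ pr p := by
  have : Nonempty {a // p a} := ⟨⟨a, h⟩⟩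
  rw [pr_eq_cn]
  exact div_le_div_of_nonneg_right (Nat.one_le_cast.2 Nat.card_pos) (Nat.cast_nonneg _)

/-- An event with at most one point. -/
theorem pr_le_inv (h : ∀ a b, p a → p b → a = b) : pr p ≤ 1 / (Nat.card α : ℝ) := by
  have : Subsingleton {a // p a} := ⟨fun a b => Subtype.ext (h _ _ a.2 b.2)⟩
  rw [pr_eq_cn]
  exact div_le_div_of_nonneg_right (Nat.cast_le_one.2 (Finite.card_le_one_iff_subsingleton.2 this))
    (Nat.cast_nonneg _)

theorem var_ind [Nonempty α] (p : α → Prop) :
    av (fun a => (ind (p a) - pr p) ^ 2) = pr p * (1 - pr p) := by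
  have : ∀ a, (ind (p a) - pr p) ^ 2 = (1 - 2 * pr p) * ind (p a) + pr p ^ 2 := fun a => by
    by_cases u : p a <;> simp [ind, u]
    ring
  simp only [this, av_add, av_mul, av_const]
  unfold pr
  ring

/-- The tail bound of a sampler. -/
theorem Smp.tail [Add α] [Nonempty α] {γ : β → α} {lam ξ : ℝ} (h : Smp γ lam) (p : α → Prop)
    (hξ : 0 < ξ) : pr (fun g => ξ ≤ |pr (fun σ => p (g + γ σ)) - pr p|) ≤
      lam ^ 2 * (pr p * (1 - pr p)) / ξ ^ 2 := by
  have := h fun a => ind (p a)
  rw [show av (fun a => ind (p a)) = pr p from rfl, var_ind] at this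
  refine (pr_mono fun g k => ?_).trans ((markov (fun _ => sq_nonneg _) (pow_pos hξ 2)).trans
    (div_le_div_of_nonneg_right this (sq_nonneg _)))
  exact sq_le_sq.2 ((abs_of_pos hξ).trans_le k)

/-- The upper tail. -/
theorem Smp.up [Add α] [Nonempty α] {γ : β → α} {lam ξ ε : ℝ} (h : Smp γ lam) {p : α → Prop}
    (hp : pr p ≤ ε) (hξ : 0 < ξ) :
    pr (fun g => ε + ξ ≤ pr fun σ => p (g + γ σ)) ≤ lam ^ 2 * pr p / ξ ^ 2 := by
  refine (pr_mono fun g k => ?_).trans ((h.tail p hξ).trans ?_)
  · exact le_abs.2 (Or.inl (by linarith))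
  · have := pr_nonneg p
    refine div_le_div_of_nonneg_right (mul_le_mul_of_nonneg_left ?_ (sq_nonneg _)) (sq_nonneg _)
    nlinarith

end Pool.Agent.PP
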