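import Pool.Agent.MP_13199e_lc.Defs
import Pool.Agent.MP_13199e_lc.PP.Prob
import Pool.Agent.Lib.helper82.PolyFun

/-! PROJECT PP: the four valued model, plain and geometric circuits, fragments, towers, and the
statements of the blocks. -/

set_option autoImplicit false

namespace Pool.Agent.PP

open Pool.Agent.MP_13199e_lc Pool.Agent.PolyT Function

/-! ### Values -/

/-- `0` is false, `1` is low, `2` is high, `3` is true. -/
abbrev V4 : Type := Fin 4

/-- The pure values. -/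
def ofB (b : Bool) : V4 := bif b then 3 else 0

/-- A read with a flag: each value is ambiguous for at most one flag. -/
def rd (fl : Bool) (v : V4) : Option Bool :=
  if v = 0 then some false else if v = 3 then some true
  else if v = 1 then (bif fl then some false else none) else (bif fl then none else some true)

/-- `b` is a completion of `a`. -/
def Fits (a : Option Bool) (b : Bool) : Prop := ∀ c, a = some c → b = c

/-- The gate constraint: a value that is forced on all completions is taken. -/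
def Forc (f : Bool → Bool → Bool) (a b : Option Bool) (v : V4) : Prop :=
  ∀ c, (∀ a' b', Fits a a' → Fits b b' → f a' b' = c) → v = ofB c

@[simp] theorem rd_ofB (fl b : Bool) : rd fl (ofB b) = some b := by revert fl b; decide

theorem ofB_inj : Injective ofB := by decide

theorem Forc.pure {f : Bool → Bool → Bool} {a b : Bool} {v : V4} (h : Forc f (some a) (some b) v) :
    v = ofB (f a b) := h _ fun _ _ ha hb => by rw [ha a rfl, hb b rfl]

theorem Forc.left {f : Bool → Bool → Bool} {a c : Bool} {b : Option Bool} {v : V4}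
    (h : Forc f (some a) b v) (hf : ∀ b', f a b' = c) : v = ofB c :=
  h _ fun _ _ ha _ => by rw [ha a rfl, hf]

theorem Forc.right {f : Bool → Bool → Bool} {b c : Bool} {a : Option Bool} {v : V4}
    (h : Forc f a (some b) v) (hf : ∀ a', f a' b = c) : v = ofB c :=
  h _ fun _ _ _ hb => by rw [hb b rfl, hf]

/-- Truth tables. -/
abbrev T4 : Type := Bool × Bool × Bool × Bool

/-- The truth table of a function. -/
def tab (f : Bool → Bool → Bool) : T4 := (f false false, f false true, f true false, f true true)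

@[simp] theorem tt_tab (f : Bool → Bool → Bool) : tt (tab f) = f := by
  funext a b; cases a <;> cases b <;> rfl

/-! ### Plain circuits -/

instance finEnc (n : ℕ) : N487b59b3 (Fin n) :=
  N487b59b3.ofLeftInverse Fin.val (fun k => if h : k < n then some ⟨k, h⟩ else none) fun x => by
    simp

/-- A truth table and two reads (node, flag). -/
abbrev PGate : Type := T4 × (ℕ × Bool) × (ℕ × Bool)

def PWf (C : List PGate) : Prop := C ≠ [] ∧ ∀ g ∈ C, g.2.1.1 < C.length ∧ g.2.2.1 < C.length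

/-- The gate with the output `i` is satisfied. -/
def POk (C : List PGate) (y : ℕ → V4) (i : ℕ) : Prop :=
  ∀ g, C[i]? = some g → Forc (tt g.1) (rd g.2.1.2 (y g.2.1.1)) (rd g.2.2.2 (y g.2.2.1)) (y i)

/-- A list as an assignment. -/
def val (y : List V4) (i : ℕ) : V4 := y.getD i 0

/-- The fraction of the violated gates. -/
noncomputable def pviol (C : List PGate) (y : List V4) : ℝ :=
  pr fun i : Fin C.length => ¬POk C (val y) i

/-- BLOCK F: from END OF THE LINE to exact solutions of plain circuits. -/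
def Base1 : Prop :=
  ∃ (f : BCirc × BCirc → List PGate) (g : (BCirc × BCirc) × List V4 → List Bool),
    Poly f ∧ Poly g ∧ ∀ I, EolInst I → PWf (f I) ∧
      ∀ y, (∀ i, POk (f I) (val y) i) → EolSol I (g (I, y))

/-- The gap reduction for plain circuits. -/
def GapK (δ : ℝ) (f : List PGate → List PGate) : Prop :=
  ∃ g : List PGate × List V4 → List V4, Poly f ∧ Poly g ∧ ∀ C, PWf C → PWf (f C) ∧
    ∀ y, pviol (f C) y ≤ δ → ∀ i, POk C (val (g (C, y))) i

/-- The result of the blocks D, C, E, G. -/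
def PGap : Prop := ∃ (δ : ℝ) (f : List PGate → List PGate), 0 < δ ∧ GapK δ f

/-- TOG: from plain circuits to generalized circuits. -/
def ToG : Prop :=
  ∃ (c : ℕ) (f : List PGate → GCirc) (g : List PGate × List ℚ → List V4), 0 < c ∧ Poly f ∧
    Poly g ∧ ∀ C, PWf C → GWf (f C) ∧ ∀ (δ : ℚ) (x : List ℚ), GSol (1 / 20) δ (f C) x →
      pviol C (g (C, x)) ≤ c * δ

/-! ### Geometric circuits -/

/-- Channels. -/
abbrev Ch : Type := Fin 6

/-- A truth table and two reads (channel, flag). -/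
abbrev Gate : Type := T4 × (Ch × Bool) × (Ch × Bool)

/-- For each channel a permutation of the slots and a move for each slot. -/
abbrev Wir (Mv Sl : Type) : Type := (Ch → Equiv.Perm Sl) × (Ch → Sl → Mv)

section
variable {Mv Sl Z Ctx : Type}

/-- The value that the node `(z, s)` reads through the channel `c`. -/
def inp (ω : Wir Mv Sl) (mv : Mv → Z → Z) (x : Z → Sl → V4) (z : Z) (s : Sl) (c : Ch) : V4 :=
  x (mv (ω.2 c s) z) (ω.1 c s)

def GateOk (ω : Wir Mv Sl) (mv : Mv → Z → Z) (g : Gate) (x : Z → Sl → V4) (z : Z) (s : Sl) : Prop :=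
  Forc (tt g.1) (rd g.2.1.2 (inp ω mv x z s g.2.1.1)) (rd g.2.2.2 (inp ω mv x z s g.2.2.1)) (x z s)

/-- The fraction of the violated gates. -/
noncomputable def viol (ω : Wir Mv Sl) (mv : Mv → Z → Z) (C : Z → Sl → Gate) (x : Z → Sl → V4) :
    ℝ := pr fun p : Z × Sl => ¬GateOk ω mv (C p.1 p.2) x p.1 p.2

/-- A word of moves; the first letter acts first. -/
def run (mv : Mv → Z → Z) (l : List Mv) (z : Z) : Z := l.foldl (fun z m => mv m z) z

@[simp] theorem run_nil (mv : Mv → Z → Z) (z : Z) : run mv [] z = z := rfl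

@[simp] theorem run_cons (mv : Mv → Z → Z) (m : Mv) (l : List Mv) (z : Z) :
    run mv (m :: l) z = run mv l (mv m z) := rfl

theorem run_append (mv : Mv → Z → Z) (l l' : List Mv) (z : Z) :
    run mv (l ++ l') z = run mv l' (run mv l z) := List.foldl_append

theorem run_inj {mv : Mv → Z → Z} (h : ∀ m, Injective (mv m)) (l : List Mv) :
    Injective (run mv l) := by
  induction l with
  | nil => exact injective_id
  | cons m l ih => exact ih.comp (h m)

/-- A conditional move. -/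
def lay (mv : Mv → Z → Z) (ctx : Z → Ctx) (a : Mv × (Ctx → Bool)) (z : Z) : Z :=
  bif a.2 (ctx z) then mv a.1 z else z

end

/-! ### Fragments -/

/-- Layers of gates with two reads (source, wire, flag); the function depends on the context. -/
structure Frag (Ctx Wi In : Type) where
  Lay : Type
  fin : Finite Lay
  src : Lay → Bool → In ⊕ Lay
  wire : Lay → Bool → Wi
  flag : Lay → Bool → Bool
  f : Lay → Ctx → Bool → Bool → Bool

/-- All gates at the position `p` are satisfied. -/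
def Frag.Sat {Ctx Wi In P : Type} (G : Frag Ctx Wi In) (rn : Wi → P → P) (ctx : P → Ctx)
    (x : In → P → V4) (v : G.Lay → P → V4) (p : P) : Prop :=
  ∀ a, Forc (G.f a (ctx p))
    (rd (G.flag a false) (Sum.elim x v (G.src a false) (rn (G.wire a false) p)))
    (rd (G.flag a true) (Sum.elim x v (G.src a true) (rn (G.wire a true) p))) (v a p)

/-- A family of position spaces with wires and contexts. -/
structure Stg (Ctx : Type) where
  ε : Type
  P : ε → Type
  Wi : Type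
  rn : ∀ e, Wi → P e → P e
  ctx : ∀ e, P e → Ctx
  i0 : Wi
  rn0 : ∀ e p, rn e i0 p = p

/-- Relations between inputs, outputs and the set of faulty positions. -/
abbrev Stg.Rel {Ctx : Type} (S : Stg Ctx) (In Out : Type) : Type :=
  ∀ e, (In → S.P e → V4) → (Out → S.P e → V4) → Set (S.P e) → Prop

/-- The relation `R` is realized by a fragment with at most `c` layers. -/
def Real {Ctx : Type} (S : Stg Ctx) (c : ℕ) {In Out : Type} (R : S.Rel In Out) : Prop :=
  ∃ (G : Frag Ctx S.Wi In) (out : Out → In ⊕ G.Lay), Nat.card G.Lay ≤ c ∧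
    ∀ e x v (F : Set (S.P e)), (∀ p ∉ F, G.Sat (S.rn e) (S.ctx e) x v p) →
      R e x (fun o => Sum.elim x v (out o)) F

/-- COMP: a closed fragment whose wires are lists of conditional moves is a geometric circuit. -/
def CompS : Prop :=
  ∀ (Ctx Wi Mv Sl : Type) [Finite Sl] (G : Frag Ctx Wi Empty) (m0 : Mv) (R : ℕ)
    (rt : Wi → List (Mv × (Ctx → Bool))), (∀ W, (rt W).length ≤ R) →
    100 * (Nat.card G.Lay * (R + 1)) ^ 2 ≤ Nat.card Sl →
    ∃ (ω : Wir Mv Sl) (Ψ : Ctx → Sl → Gate) (o : G.Lay → Sl),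
      ∀ (P : Type) [Finite P] (mv : Mv → P → P) (ctx : P → Ctx), (∀ p, mv m0 p = p) →
        (∀ W, ∀ a ∈ rt W, Injective (lay mv ctx a)) → ∀ x : P → Sl → V4, ∃ F : Set P,
          pr (· ∈ F) ≤ (Nat.card Sl : ℝ) ^ 2 * viol ω mv (fun p => Ψ (ctx p)) x ∧
          ∀ p ∉ F, G.Sat (fun W => run (lay mv ctx) (rt W)) ctx Empty.elim
            (fun a p => x p (o a)) p

/-! ### Towers -/

/-- A self-similar tower of spaces with moves. -/
structure Tow (Mv Λ : Type) where
  Z : ℕ → Type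
  fin : ∀ k, Finite (Z k)
  one : Nat.card (Z 0) = 1
  mv : ∀ k, Mv → Z k → Z k
  inj : ∀ k m, Injective (mv k m)
  m0 : Mv
  id0 : ∀ k z, mv k m0 z = z
  sp : ∀ k, Z (k + 1) ≃ Z k × Λ
  cw : Mv → Λ → List Mv
  β : Mv → Λ → Λ
  self : ∀ k m y, sp k (mv (k + 1) m y) =
    (run (mv k) (cw m (sp k y).2) (sp k y).1, β m (sp k y).2)

attribute [instance] Tow.fin

/-- Bit vectors. -/
abbrev Bv (n : ℕ) : Type := Fin n → ZMod 2

/-- Clouds: types `Bv (6 r)`, group `Bv (16 r)`, charts `Bv (3 r)`, links `Bv (2 r)`, leaves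
`Bv (14 r)`. -/
structure Geo (r : ℕ) (Mv : Type) where
  tw : Mv → Equiv.Perm (Bv (6 * r) × Bv (3 * r) × Bv (2 * r))
  A : Mv → Bv (6 * r) × Bv (3 * r) × Bv (2 * r) → Bv (16 * r) →+ Bv (16 * r)
  ro : Mv → Bv (3 * r) → Bv (16 * r) →+ Bv (14 * r)
  wa : Bv (6 * r) → Bv (16 * r) → List Mv
  wc : Mv → Bv (6 * r) → Bv (14 * r) → List Mv
  la : ∀ M h, (wa M h).length ≤ 1000
  lc : ∀ m M ρ, (wc m M ρ).length ≤ 1000
  link : ∀ m (F : Bv (6 * r) → ℝ), (∀ M, 0 ≤ F M ∧ F M ≤ 1) →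
    av (fun M => (av (fun u => F (tw m (M, u)).1) - av F) ^ 2) ≤ 2 / 2 ^ r

/-- The facts on the clouds in one space. -/
structure Geo.Ok {r : ℕ} {Mv Z : Type} (G : Geo r Mv) (mv : Mv → Z → Z) : Prop where
  zero : ∀ M z, run mv (G.wa M 0) z = z
  add : ∀ M h h' z, run mv (G.wa M (h + h')) z = run mv (G.wa M h) (run mv (G.wa M h') z)
  key : ∀ m u h z, mv m (run mv (G.wa u.1 h) z) =
    run mv (G.wa (G.tw m u).1 (G.A m u h)) (run mv (G.wc m u.1 (G.ro m u.2.1 h)) z)
  gain : ∀ m (D : Z → Bv (6 * r) → Bv (3 * r) → Bv (14 * r) → ℝ) (g η d : ℝ), 0 < g →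
    g ^ 2 ≤ 2 ^ r → 0 < η → (∀ z M c ρ, 0 ≤ D z M c ρ ∧ D z M c ρ ≤ 1) →
    av (fun u : Z × Bv (6 * r) × Bv (3 * r) × Bv (14 * r) => D u.1 u.2.1 u.2.2.1 u.2.2.2) ≤ d →
    d ≤ η / 2 → pr (fun v => η ≤ av fun u : Bv (6 * r) × Bv (3 * r) × Bv (16 * r) =>
      D (run mv (G.wa u.1 u.2.2) v) u.1 u.2.1 (G.ro m u.2.1 u.2.2)) ≤ 12 * d / (g * η ^ 2)

section
variable {Mv Λ : Type} (T : Tow Mv Λ)

/-- Every wire (coarse word, permutation of the labels) is a short list of conditional moves. -/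
def Tow.Route (R : ℕ) : Prop :=
  ∀ (w : Λ → List Mv) (b : Equiv.Perm Λ) (φ : Λ → Λ),
    (∀ l, φ (φ l) = l ∧ φ l ≠ l ∧ w (φ l) = w l ∧ (w l).length ≤ 2000) →
    ∃ ls : List (Mv × (Λ → Bool)), ls.length ≤ R ∧ ∀ k,
      (∀ a ∈ ls, Injective (lay (T.mv (k + 1)) (fun y => (T.sp k y).2) a)) ∧
      ∀ y, T.sp k (run (lay (T.mv (k + 1)) fun y => (T.sp k y).2) ls y) =
        (run (T.mv k) (w (T.sp k y).2) (T.sp k y).1, b (T.sp k y).2)

/-- The point with all labels equal to `l`. -/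
noncomputable def Tow.org (l : Λ) : ∀ k, T.Z k
  | 0 => Classical.choice (Nat.card_pos_iff.1 (T.one ▸ Nat.one_pos)).1
  | k + 1 => (T.sp k).symm (org l k, l)

/-- The vertex `n` of a binary tree with the root `z`. -/
def vtx {Z : Type} (mv : Mv → Z → Z) (a : Bool → List Mv) (n : ℕ) (z : Z) : Z :=
  n.bits.foldr (fun c y => run mv (a c) y) z

/-- Two commuting binary trees. -/
def Tow.Tree : Prop :=
  ∃ (a b : Bool → Bool → List Mv) (w : List Mv) (l : Λ),
    (∀ i c, (a i c).length ≤ 100 ∧ (b i c).length ≤ 100) ∧ ∀ k,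
    (∀ i c z, run (T.mv k) (b i c) (run (T.mv k) (a i c) z) = z) ∧
    (∀ c d z, run (T.mv k) (a false c) (run (T.mv k) (a true d) z) =
      run (T.mv k) (a true d) (run (T.mv k) (a false c) z)) ∧
    ∀ u v u' v', u < 2 ^ k → v < 2 ^ k → u' < 2 ^ k → v' < 2 ^ k →
      vtx (T.mv (k + 1)) (a false) u (vtx (T.mv (k + 1)) (a true) v
        (run (T.mv (k + 1)) w (T.org l (k + 1)))) =
      vtx (T.mv (k + 1)) (a false) u' (vtx (T.mv (k + 1)) (a true) v'
        (run (T.mv (k + 1)) w (T.org l (k + 1)))) → u = u' ∧ v = v'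

/-- One round halves the fraction of the violated gates. -/
def Tow.Amp (Sl : Type) (δ : ℝ) : Prop :=
  ∃ (J : Type) (_ : Finite J) (ws : J → List Mv) (Φ : Wir Mv Sl → Wir Mv Sl)
    (Ψ : Wir Mv Sl → (J → Sl → Gate) → Λ → Sl → Gate)
    (Δ : Wir Mv Sl → (J → Λ → Sl → V4) → Sl → V4),
    ∀ k ω (C : T.Z k → Sl → Gate) (C' : T.Z (k + 1) → Sl → Gate) (x : T.Z (k + 1) → Sl → V4),
      (∀ y, C' y = Ψ ω (fun a => C (run (T.mv k) (ws a) (T.sp k y).1)) (T.sp k y).2) →
      viol (Φ ω) (T.mv (k + 1)) C' x ≤ δ →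
      viol ω (T.mv k) C (fun z => Δ ω fun a l => x ((T.sp k).symm (run (T.mv k) (ws a) z, l))) ≤
        viol (Φ ω) (T.mv (k + 1)) C' x / 2

end

/-- BLOCK D: the geometry. -/
def GeoS : Prop :=
  ∀ (r j : ℕ) (Λ : Type), 10 ≤ r → 1 ≤ j → Nat.card Λ = 2 ^ (6 * r * j) →
    ∃ (Mv : Type) (_ : Finite Mv) (T : Tow Mv Λ) (G : Geo r Mv), (∀ k, G.Ok (T.mv k)) ∧
      T.Route (10 ^ 10 * r ^ 3 * j ^ 2) ∧ T.Tree

/-- BLOCKS C, E: the round. -/
def AmpS : Prop :=
  ∃ (r j : ℕ) (Λ Sl : Type) (_ : Finite Sl) (δ : ℝ), 10 ≤ r ∧ 1 ≤ j ∧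
    Nat.card Λ = 2 ^ (6 * r * j) ∧ 10 ^ 12 ≤ Nat.card Sl ∧ 0 < δ ∧
    ∀ (Mv : Type) [Finite Mv] (T : Tow Mv Λ) (G : Geo r Mv), (∀ k, G.Ok (T.mv k)) →
      T.Route (10 ^ 10 * r ^ 3 * j ^ 2) → T.Amp Sl δ

/-- BLOCK G: the base embedding and the iteration of the rounds. -/
def TowS : Prop :=
  ∀ (Mv Λ Sl : Type) [Finite Mv] [Finite Λ] [Finite Sl] (T : Tow Mv Λ) (δ : ℝ), 0 < δ →
    2 ≤ Nat.card Λ → 10 ^ 12 ≤ Nat.card Sl → T.Tree → T.Amp Sl δ → PGap

theorem pgap_of (hD : GeoS) (hE : AmpS) (hG : TowS) : PGap := by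
  obtain ⟨r, j, Λ, Sl, _, δ, hr, hj, hΛ, hS, hδ, h⟩ := hE
  obtain ⟨Mv, _, T, G, h1, h2, h3⟩ := hD r j Λ hr hj hΛ
  have : Finite Λ := Nat.finite_of_card_ne_zero (by rw [hΛ]; positivity)
  refine hG Mv Λ Sl T δ hδ ?_ hS h3 (h Mv T G h1 h2)
  rw [hΛ]
  exact Nat.succ_le_of_lt (Nat.one_lt_two_pow (by positivity))

theorem polyPCP_of (hF : Base1) (hP : PGap) (hT : ToG) : PolyPCP := by
  obtain ⟨f₁, g₁, p₁, q₁, h₁⟩ := hF
  obtain ⟨δ, f₂, hδ, g₂, p₂, q₂, h₂⟩ := hP
  obtain ⟨c, f₃, g₃, hc, p₃, q₃, h₃⟩ := hT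
  have hc' : (0 : ℝ) < c := Nat.cast_pos.2 hc
  obtain ⟨d, d0, d1⟩ := exists_rat_btwn (div_pos hδ hc')
  refine ⟨1 / 20, d, by norm_num, by exact_mod_cast d0, fun I => f₃ (f₂ (f₁ I)),
    fun a => g₁ (a.1, g₂ (f₁ a.1, g₃ (f₂ (f₁ a.1), a.2))), (poly_iff _).1 (by fun_prop),
    (poly_iff _).1 (by fun_prop), fun I hI => ?_⟩
  have a1 := h₁ I hI
  have a2 := h₂ _ a1.1
  have a3 := h₃ _ a2.1
  exact ⟨a3.1, trivial, fun x hx => a1.2 _ (a2.2 _ ((a3.2 d x hx).trans
    (by rw [lt_div_iff₀ hc'] at d1; linarith)))⟩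

end Pool.Agent.PP
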