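import Pool.Agent.MP_13199e_lc.PP.C.Thr
import Pool.Agent.MP_13199e_lc.PP.C.Sym
import Pool.Agent.MP_13199e_lc.PP.C.SmpS
import Pool.Agent.MP_13199e_lc.PP.C.Ld
import Pool.Agent.MP_13199e_lc.PP.C.Rs
import Pool.Agent.MP_13199e_lc.PP.C.Pz
import Pool.Agent.MP_13199e_lc.PP.C.Op
import Pool.Agent.MP_13199e_lc.PP.C.Pas
import Pool.Agent.MP_13199e_lc.PP.C.Kc
import Pool.Agent.MP_13199e_lc.PP.C.Pur
import Pool.Agent.MP_13199e_lc.PP.C.Cw
import Pool.Agent.MP_13199e_lc.PP.C.Th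
import Pool.Agent.MP_13199e_lc.PP.E.Casc
import Pool.Agent.MP_13199e_lc.PP.E.Tree
import Pool.Agent.MP_13199e_lc.PP.E.Stg
import Pool.Agent.MP_13199e_lc.PP.E.Hold
import Pool.Agent.MP_13199e_lc.PP.E.Site
import Pool.Agent.MP_13199e_lc.PP.E.Glob
import Pool.Agent.MP_13199e_lc.PP.E.FetA
import Pool.Agent.MP_13199e_lc.PP.E.FetB
import Pool.Agent.MP_13199e_lc.PP.E.Node
import Pool.Agent.MP_13199e_lc.PP.E.Cnt
import Pool.Agent.MP_13199e_lc.PP.E.Fin
import Pool.Agent.MP_13199e_lc.PP.E.Rnd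
import Pool.Agent.MP_13199e_lc.PP.E.ParX
import Pool.Agent.MP_13199e_lc.PP.D.Geo
import Pool.Agent.MP_13199e_lc.PP.F.Base1
import Pool.Agent.MP_13199e_lc.PP.G.Comp
import Pool.Agent.MP_13199e_lc.PP.G.ToG
import Pool.Agent.MP_13199e_lc.PP.G.Tow

/-! PROJECT PP: the assembly. -/

set_option autoImplicit false

namespace Pool.Agent.PP

open Pool.Agent.MP_13199e_lc

theorem Par.kit (P : Par) : P.KitP :=
  have op := opS P.enc P.Cx P.hyp majS symS
  have cw := cwS P.hyp op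
  ⟨op, purS P.enc P.Cx P.hyp (pzS selS) (pasS P.enc P.Cx P.hyp thrS symS rsS pluS)
    (kcS P.hyp P.Cx thrS selS), clS P.enc P.Cx P.hyp op, thS P.hyp cw, boS P.hyp cw⟩

theorem Par.rnd (P : Par) : P.RndS :=
  Par.rndS P Comp.compS (Par.globS P (Par.siteS P (Par.treeS P.kit) (Par.stgS P.kit)
    (Par.holdS P.kit majS) cascS)) (Par.finS P (Par.fetAS P) (Par.fetBS P) (Par.nodeS P)
      (Par.cntS P))

theorem ampS : AmpS := ampS_of (parS smpS ldS) Par.rnd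

theorem polyPCP : PolyPCP := polyPCP_of F.base1 (pgap_of geoS ampS Tow.towS) toG

end Pool.Agent.PP
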